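import Pool.Agent.Shared.SmoothShift

/-!
Adding a term with a generic prime base to an exponential equation that is reducible to a
congruence.
-/

namespace Pool.Agent.Lib.MP_b7b898_nt.Gen

open Finset Function Filter Topology Pool.Agent.Shared.BrunSieve Pool.Agent.Shared.SmoothShift

lemma pow_reduce {l N : ℕ} (hl : l.Prime) (hN : l - 1 ∣ N) (a : ZMod l) (x : ℕ) :
    a ^ (x + 1) = a ^ (x % N + 1) := by
  have := Fact.mk hl
  rcases eq_or_ne a 0 with rfl | ha
  · simp
  obtain ⟨t, ht⟩ := hN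
  have h1 : a ^ N = 1 := by rw [ht, pow_mul, ZMod.pow_card_sub_one_eq_one ha, one_pow]
  conv_lhs => rw [← Nat.div_add_mod x N, add_assoc, pow_add, pow_mul, h1, one_pow, one_mul]

/-- the reduced exponent -/
def red (N x : ℕ) : ℕ := if x = 0 then 0 else (x - 1) % N + 1

lemma red_le {N : ℕ} (hN : 0 < N) (x : ℕ) : red N x ∈ range (N + 1) := by
  unfold red
  have := Nat.mod_lt (x - 1) hN
  simp only [mem_range]
  split_ifs <;> omega

lemma pow_red {l N : ℕ} (hl : l.Prime) (hN : l - 1 ∣ N) (a : ZMod l) (x : ℕ) :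
    a ^ red N x = a ^ x := by
  unfold red
  split_ifs with h
  · rw [h]
  · rw [← pow_reduce hl hN, Nat.sub_add_cancel (by omega)]

lemma dvd_of_dvd_red {d N x : ℕ} (hd : d ∣ N) (h : d ∣ red N x) : d ∣ x := by
  unfold red at h
  split_ifs at h with h0
  · rw [h0]; exact dvd_zero d
  · have e : x = N * ((x - 1) / N) + ((x - 1) % N + 1) := by
      have := Nat.div_add_mod (x - 1) N
      omega
    rw [e]
    exact dvd_add (hd.mul_right _) h

lemma half {l y : ℕ} (hl : l.Prime) (hy : ¬ l - 1 ∣ y) (v : ZMod l) :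
    2 * #((range l).filter fun u : ℕ => (u : ZMod l) ≠ 0 ∧ (u : ZMod l) ^ y = v) ≤ l - 1 := by
  have := Fact.mk hl
  obtain ⟨g, hg⟩ := IsCyclic.exists_generator (α := (ZMod l)ˣ)
  have hord : orderOf g = l - 1 := by
    rw [orderOf_eq_card_of_forall_mem_zpowers hg, Nat.card_eq_fintype_card, ZMod.card_units]
  have hg1 : (g : ZMod l) ^ y ≠ 1 := by
    intro h
    apply hy
    rw [← hord, orderOf_dvd_iff_pow_eq_one]
    exact Units.ext (by simpa using h)
  set S := ({u : ZMod l | u ≠ 0 ∧ u ^ y = v} : Finset (ZMod l)) with hS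
  have h1 : #((range l).filter fun u : ℕ => (u : ZMod l) ≠ 0 ∧ (u : ZMod l) ^ y = v) ≤ #S := by
    refine card_le_card_of_injOn (fun u : ℕ => (u : ZMod l)) ?_ ?_
    · intro u hu
      simp only [coe_filter, Set.mem_ofPred_eq] at hu
      simpa [hS] using hu.2
    · intro u hu w hw h
      simp only [coe_filter, Set.mem_ofPred_eq, mem_range] at hu hw
      have := congrArg ZMod.val h
      simpa only [ZMod.val_cast_of_lt hu.1, ZMod.val_cast_of_lt hw.1] using this
  have h2 : #(S.image fun u => (g : ZMod l) * u) = #S :=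
    card_image_of_injective _ (mul_right_injective₀ g.ne_zero)
  have h3 : Disjoint S (S.image fun u => (g : ZMod l) * u) := by
    rw [disjoint_left]
    intro u hu hu'
    obtain ⟨w, hw, rfl⟩ := mem_image.1 hu'
    simp only [hS, mem_filter, mem_univ, true_and] at hu hw
    apply hg1
    have h4 := hu.2
    rw [mul_pow, ← hw.2] at h4
    exact mul_right_cancel₀ (pow_ne_zero y hw.1) (h4.trans (one_mul _).symm)
  have h4 : S ∪ (S.image fun u => (g : ZMod l) * u) ⊆ univ.erase 0 := by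
    intro u hu
    rw [mem_erase]
    refine ⟨?_, mem_univ _⟩
    rcases mem_union.1 hu with hu | hu
    · simp only [hS, mem_filter] at hu
      exact hu.2.1
    · obtain ⟨w, hw, rfl⟩ := mem_image.1 hu
      simp only [hS, mem_filter] at hw
      exact mul_ne_zero g.ne_zero hw.2.1
  have h5 := card_le_card h4
  rw [card_union_of_disjoint h3, h2, card_erase_of_mem (mem_univ _), card_univ, ZMod.card] at h5
  omega

lemma totient_prod (L : Finset ℕ) (hL : ∀ l ∈ L, l.Prime) :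
    (∏ l ∈ L, l).totient = ∏ l ∈ L, (l - 1) := by
  induction L using Finset.induction_on with
  | empty => simp
  | insert r D hr ih =>
    have hD' : ∀ s ∈ D, s.Prime := fun s hs => hL s (mem_insert_of_mem hs)
    have hrp := hL r (mem_insert_self _ _)
    have hcop : r.Coprime (∏ s ∈ D, s) := Nat.Coprime.prod_right fun s hs =>
      (Nat.coprime_primes hrp (hD' s hs)).2 fun h => hr (h ▸ hs)
    rw [prod_insert hr, prod_insert hr, Nat.totient_mul hcop, Nat.totient_prime hrp, ih hD']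

/-- few primes have a prescribed power modulo many primes -/
lemma few_primes (L : Finset ℕ) (hL : ∀ l ∈ L, l.Prime) :
    ∀ᶠ X : ℕ in atTop, ∀ y : ℕ, (∀ l ∈ L, ¬ l - 1 ∣ y) → ∀ v : ℤ,
      (#((PR X).filter fun q : ℕ =>
        ∀ l ∈ L, (q : ZMod l) ≠ 0 ∧ (q : ZMod l) ^ y = (v : ZMod l)) : ℝ) ≤
        3 / 2 ^ #L * #(PR X) := by
  set M := ∏ l ∈ L, l with hM
  have hM0 : 0 < M := prod_pos fun l hl => (hL l hl).pos
  have : NeZero M := ⟨hM0.ne'⟩
  have h1 : ∀ᶠ X : ℕ in atTop, ∀ a : (ZMod M)ˣ,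
      (#(PA (a : ZMod M) X) : ℝ) ≤ 3 * (M.totient : ℝ)⁻¹ * #(PR X) :=
    eventually_all.2 fun a => PA_le a.isUnit
  filter_upwards [h1] with X hX y hy v
  set S := ({u ∈ range M | ∀ l ∈ L, (u : ZMod l) ≠ 0 ∧ (u : ZMod l) ^ y = (v : ZMod l)} :
    Finset ℕ) with hS
  have h2 : 2 ^ #L * #S ≤ M.totient := by
    rw [hS, hM, count_prod L hL (fun l u => (u : ZMod l) ≠ 0 ∧ (u : ZMod l) ^ y = (v : ZMod l))
      (fun l _ u => by simp), totient_prod L hL, ← prod_const, ← prod_mul_distrib]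
    exact prod_le_prod' fun l hl => half (hL l hl) (hy l hl) _
  have h3 : ({q ∈ PR X | ∀ l ∈ L, (q : ZMod l) ≠ 0 ∧ (q : ZMod l) ^ y = (v : ZMod l)} :
      Finset ℕ) ⊆ S.biUnion fun u => PA (u : ZMod M) X := by
    intro q hq
    simp only [mem_filter] at hq
    simp only [mem_biUnion]
    refine ⟨q % M, ?_, mem_filter.2 ⟨mem_filter.2 hq.1, by simp⟩⟩
    simp only [hS, mem_filter, mem_range]
    refine ⟨Nat.mod_lt _ hM0, fun l hl => ?_⟩
    have : ((q % M : ℕ) : ZMod l) = q := by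
      rw [ZMod.natCast_eq_natCast_iff']
      exact Nat.mod_mod_of_dvd q (dvd_prod_of_mem (fun l : ℕ => l) hl)
    rw [this]
    exact hq.2 l hl
  have h4 : ∀ u ∈ S, (#(PA (u : ZMod M) X) : ℝ) ≤ 3 * (M.totient : ℝ)⁻¹ * #(PR X) := by
    intro u hu
    simp only [hS, mem_filter] at hu
    have hc : u.Coprime M := Nat.Coprime.prod_right fun l hl => by
      rw [Nat.coprime_comm, (hL l hl).coprime_iff_not_dvd, ← ZMod.natCast_eq_zero_iff]
      exact (hu.2 l hl).1
    exact hX (ZMod.unitOfCoprime u hc)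
  have h5 := (card_le_card h3).trans card_biUnion_le
  have hφ : (0 : ℝ) < M.totient := by exact_mod_cast Nat.totient_pos.2 hM0
  have h6 : (#S : ℝ) * (M.totient : ℝ)⁻¹ ≤ 1 / 2 ^ #L := by
    rw [← div_eq_mul_inv, div_le_div_iff₀ hφ (by positivity), one_mul, mul_comm]
    exact_mod_cast h2
  refine le_trans (by exact_mod_cast h5) ((sum_le_card_nsmul _ _ _ h4).trans ?_)
  rw [nsmul_eq_mul]
  calc _ = 3 * ((#S : ℝ) * (M.totient : ℝ)⁻¹) * #(PR X) := by ring
    _ ≤ 3 * (1 / 2 ^ #L) * #(PR X) := by gcongr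
    _ = _ := by ring

lemma PR_tendsto : Tendsto (fun X : ℕ => (#(PR X) : ℝ)) atTop atTop := by
  refine tendsto_natCast_atTop_atTop.comp ?_
  refine Nat.tendsto_primeCounting.congr fun X => ?_
  rw [Nat.primeCounting, Nat.primeCounting', Nat.count_eq_card_filter_range]

open Classical in
/-- the main estimate -/
theorem generic_step {j : ℕ} (p : Fin j → ℕ) (δ : Fin j → ℤ) (c e : ℤ) (he : e = 1 ∨ e = -1)
    (M0 : ℕ) (hM0 : 1 ≤ M0) (h0 : ∀ x : Fin j → ℕ,
      (M0 : ℤ) ∣ ∑ i, δ i * (p i : ℤ) ^ x i + (c + e) → ∑ i, δ i * (p i : ℤ) ^ x i + (c + e) = 0)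
    (η : ℝ) (hη : 0 < η) :
    ∀ᶠ X : ℕ in atTop, (#((PR X).filter fun q : ℕ => ¬ ∃ M : ℕ, 1 ≤ M ∧
      ∀ (x : Fin j → ℕ) (y : ℕ), (M : ℤ) ∣ ∑ i, δ i * (p i : ℤ) ^ x i + e * (q : ℤ) ^ y + c →
        ∑ i, δ i * (p i : ℤ) ^ x i + e * (q : ℤ) ^ y + c = 0) : ℝ) ≤ η * #(PR X) := by
  obtain ⟨K, hK1, hK2⟩ : ∃ K : ℕ, j + 1 ≤ K ∧ 6 / η ≤ K := by
    obtain ⟨K, hK⟩ := exists_nat_ge (6 / η)
    exact ⟨j + 1 + K, by omega, hK.trans (by push_cast; linarith [Nat.cast_nonneg (α := ℝ) j])⟩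
  obtain ⟨N, hN, L, hL, hKL⟩ := exists_many_shifted M0.totient (Nat.totient_pos.2 hM0) K
  have hLne : L.Nonempty := by
    rw [nonempty_iff_ne_empty]
    rintro rfl
    have h1 : 2 ≤ (N + 1) ^ K := (by omega : 2 ≤ N + 1).trans (Nat.le_self_pow (by omega) _)
    simp only [card_empty, pow_zero] at hKL
    nlinarith
  have hN0 : M0.totient ∣ N := by
    obtain ⟨l, hl⟩ := hLne
    exact (hL l hl).2.1.trans (hL l hl).2.2
  set M := ∏ l ∈ L, l with hM
  have hMpos : 0 < M := prod_pos fun l hl => (hL l hl).1.pos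
  have hee : e * e = 1 := by rcases he with rfl | rfl <;> norm_num
  filter_upwards [few_primes L fun l hl => (hL l hl).1,
    PR_tendsto.eventually_ge_atTop (2 * (M0 * M + 1) / η)] with X hX hX2
  set I := (Fintype.piFinset fun _ : Fin j => range (N + 1)) ×ˢ
    ((range (N + 1)).filter fun y => ¬ M0.totient ∣ y) with hI
  have hsub : ({q ∈ PR X | ¬ ∃ M : ℕ, 1 ≤ M ∧ ∀ (x : Fin j → ℕ) (y : ℕ),
      (M : ℤ) ∣ ∑ i, δ i * (p i : ℤ) ^ x i + e * (q : ℤ) ^ y + c →
        ∑ i, δ i * (p i : ℤ) ^ x i + e * (q : ℤ) ^ y + c = 0} : Finset ℕ) ⊆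
      range (M0 * M + 1) ∪ I.biUnion fun t => {q ∈ PR X | ∀ l ∈ L, (q : ZMod l) ≠ 0 ∧
        (q : ZMod l) ^ t.2 = ((-e * (∑ i, δ i * (p i : ℤ) ^ t.1 i + c) : ℤ) : ZMod l)} := by
    intro q hq
    rw [mem_filter] at hq
    obtain ⟨hq1, hq2⟩ := hq
    have hqp : q.Prime := (mem_filter.1 hq1).2
    by_contra hcon
    rw [mem_union, not_or, mem_range, mem_biUnion] at hcon
    obtain ⟨hbig, hgood⟩ := hcon
    have hMM : 0 < M0 * M := Nat.mul_pos hM0 hMpos
    have hndvd : ¬ q ∣ M0 * M := fun h => by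
      have := Nat.le_of_dvd hMM h
      omega
    refine hq2 ⟨M0 * M * q, Nat.mul_pos hMM hqp.pos, fun x y hd => ?_⟩
    push_cast at hd
    by_cases hy : M0.totient ∣ y
    · have hcop : q.Coprime M0 := hqp.coprime_iff_not_dvd.2 fun h => hndvd (h.mul_right _)
      obtain ⟨t, rfl⟩ := hy
      have h1 : (M0 : ℤ) ∣ (q : ℤ) ^ (M0.totient * t) - 1 := by
        have h2 := (Nat.ModEq.pow_totient hcop).pow t
        rw [one_pow, ← pow_mul] at h2
        have h3 := (Int.natCast_modEq_iff.2 h2).symm.dvd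
        push_cast at h3
        exact h3
      have h2 : (M0 : ℤ) ∣ ∑ i, δ i * (p i : ℤ) ^ x i + (c + e) := by
        have h3 := dvd_sub (((dvd_mul_right _ _).trans (dvd_mul_right _ _)).trans hd)
          (h1.mul_left e)
        have e1 : ∑ i, δ i * (p i : ℤ) ^ x i + (c + e) = ∑ i, δ i * (p i : ℤ) ^ x i +
            e * (q : ℤ) ^ (M0.totient * t) + c - e * ((q : ℤ) ^ (M0.totient * t) - 1) := by ring
        rw [e1]
        exact h3
      have h3 := h0 x h2
      have h4 : (q : ℤ) ∣ (q : ℤ) ^ (M0.totient * t) - 1 := by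
        have h5 := ((dvd_mul_left _ _).trans hd).mul_left e
        have e1 : (q : ℤ) ^ (M0.totient * t) - 1 = e * (∑ i, δ i * (p i : ℤ) ^ x i +
            e * (q : ℤ) ^ (M0.totient * t) + c) := by
          linear_combination (-e) * h3 + (1 - (q : ℤ) ^ (M0.totient * t)) * hee
        rw [e1]
        exact h5
      rcases Nat.eq_zero_or_pos (M0.totient * t) with h5 | h5
      · rw [h5]
        linear_combination h3
      · exfalso
        have h6 : (q : ℤ) ∣ 1 := (dvd_sub_right (dvd_pow_self _ h5.ne')).1 h4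
        exact hqp.one_lt.ne' (by exact_mod_cast Int.eq_one_of_dvd_one (by positivity) h6)
    · exfalso
      refine hgood ⟨(fun i => red N (x i), red N y), ?_, mem_filter.2 ⟨hq1, fun l hl => ?_⟩⟩
      · simp only [hI, mem_product, Fintype.mem_piFinset, mem_filter]
        exact ⟨fun i => red_le hN _, red_le hN _, fun h => hy (dvd_of_dvd_red hN0 h)⟩
      · have hlM : l ∣ M := dvd_prod_of_mem (fun l : ℕ => l) hl
        obtain ⟨hl1, -, hl3⟩ := hL l hl
        refine ⟨?_, ?_⟩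
        · rw [Ne, ZMod.natCast_eq_zero_iff, Nat.prime_dvd_prime_iff_eq hl1 hqp]
          rintro rfl
          exact hndvd (hlM.mul_left _)
        · have h1 : (l : ℤ) ∣ ∑ i, δ i * (p i : ℤ) ^ x i + e * (q : ℤ) ^ y + c :=
            (((Int.natCast_dvd_natCast.2 hlM).mul_left _).mul_right _).trans hd
          rw [← ZMod.intCast_zmod_eq_zero_iff_dvd] at h1
          have h2 : (e : ZMod l) * e = 1 := by exact_mod_cast congrArg (Int.cast (R := ZMod l)) hee
          push_cast at h1 ⊢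
          simp only [pow_red hl1 hl3]
          linear_combination (e : ZMod l) * h1 - (q : ZMod l) ^ y * h2
  have h1 := (card_le_card hsub).trans ((card_union_le _ _).trans
    (Nat.add_le_add_left card_biUnion_le _))
  rw [card_range] at h1
  have h2 : ∀ t ∈ I, (#{q ∈ PR X | ∀ l ∈ L, (q : ZMod l) ≠ 0 ∧ (q : ZMod l) ^ t.2 =
      ((-e * (∑ i, δ i * (p i : ℤ) ^ t.1 i + c) : ℤ) : ZMod l)} : ℝ) ≤ 3 / 2 ^ #L * #(PR X) := by
    intro t ht
    simp only [hI, mem_product, mem_filter] at ht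
    exact hX t.2 (fun l hl h => ht.2.2 ((hL l hl).2.1.trans h)) _
  have h3 : #I ≤ (N + 1) ^ K := by
    calc #I ≤ (N + 1) ^ j * (N + 1) := by
          rw [hI, card_product, Fintype.card_piFinset]
          simp only [card_range, prod_const, card_univ, Fintype.card_fin]
          gcongr
          exact (card_filter_le _ _).trans (card_range _).le
      _ = (N + 1) ^ (j + 1) := by rw [pow_succ]
      _ ≤ _ := Nat.pow_le_pow_right (by omega) hK1
  have h4 : (#I : ℝ) * (3 / 2 ^ #L) ≤ η / 2 := by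
    have h5 : ((K * #I : ℕ) : ℝ) ≤ ((2 ^ #L : ℕ) : ℝ) := by
      exact_mod_cast (Nat.mul_le_mul_left K h3).trans hKL
    push_cast at h5
    rw [div_le_iff₀ hη] at hK2
    rw [← mul_div_assoc, div_le_iff₀ (by positivity)]
    have h6 : (0 : ℝ) ≤ #I := by positivity
    nlinarith
  have h5 := sum_le_card_nsmul _ _ _ h2
  rw [nsmul_eq_mul, ← mul_assoc] at h5
  have h6 := mul_le_mul_of_nonneg_right h4 (show (0 : ℝ) ≤ #(PR X) by positivity)
  rw [div_le_iff₀ hη] at hX2
  refine le_trans (Nat.cast_le.2 h1) ?_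
  rw [Nat.cast_add, Nat.cast_sum]
  have h7 : ((M0 * M + 1 : ℕ) : ℝ) = M0 * M + 1 := by push_cast; ring
  rw [h7]
  linarith

end Pool.Agent.Lib.MP_b7b898_nt.Gen
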