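import Pool.Agent.Lib.MP_b7b898_nt.Generic

/-!
Equations in one prime, and blocks of terms with a common generic prime base.
-/

namespace Pool.Agent.Lib.MP_b7b898_nt.Shape

open Finset Function Filter Topology Pool.Agent.Shared.BrunSieve Pool.Agent.Shared.SmoothShift
open Pool.Agent.Lib.MP_b7b898_nt.Gen

/-! ### One prime -/

/-- among `card + 1` windows one contains no exponent -/
lemma gap {ι : Type} [Fintype ι] (x : ι → ℕ) {g : ℕ} (hg : 0 < g) :
    ∃ j ≤ Fintype.card ι, ∀ i, x i < j * g ∨ j * g + g ≤ x i := by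
  classical
  have h : ¬ range (Fintype.card ι + 1) ⊆ univ.image fun i => x i / g := fun h => by
    have := (card_le_card h).trans card_image_le
    simp at this
  obtain ⟨j, hj, hj'⟩ := not_subset.1 h
  refine ⟨j, by simpa [Nat.lt_succ_iff] using hj, fun i => ?_⟩
  have h1 : x i / g ≠ j := fun e => hj' (mem_image.2 ⟨i, mem_univ _, e⟩)
  rcases lt_or_gt_of_ne h1 with h2 | h2
  · exact Or.inl ((Nat.div_lt_iff_lt_mul hg).1 h2)
  · have := (Nat.le_div_iff_mul_le hg).1 (Nat.succ_le_of_lt h2)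
    rw [Nat.succ_mul] at this
    exact Or.inr this

lemma abs_sum_le {ι : Type} [Fintype ι] {p : ℕ} (hp : 2 ≤ p) {ε : ι → ℤ}
    (hε : ∀ i, ε i = 1 ∨ ε i = -1) (T : Finset ι) (x : ι → ℕ) (n : ℕ) (h : ∀ i ∈ T, x i ≤ n) :
    |∑ i ∈ T, ε i * (p : ℤ) ^ x i| ≤ Fintype.card ι * (p : ℤ) ^ n := by
  refine (abs_sum_le_sum_abs _ _).trans ((sum_le_card_nsmul T _ ((p : ℤ) ^ n) fun i hi => ?_).trans ?_)
  · have h1 : |ε i| = 1 := by rcases hε i with e | e <;> simp [e]
    rw [abs_mul, h1, one_mul, abs_of_nonneg (by positivity)]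
    exact pow_le_pow_right₀ (by exact_mod_cast (by omega : 1 ≤ p)) (h i hi)
  · rw [nsmul_eq_mul]
    exact mul_le_mul_of_nonneg_right (by exact_mod_cast card_le_univ T) (by positivity)

/-- An equation in one base without degenerate solutions is reducible to a congruence. -/
theorem one_prime {ι : Type} [Fintype ι] {p : ℕ} (hp : 2 ≤ p) {ε : ι → ℤ}
    (hε : ∀ i, ε i = 1 ∨ ε i = -1) (c : ℤ)
    (hnd : ∀ (x : ι → ℕ) (T : Finset ι), T.Nonempty → ∑ i, ε i * (p : ℤ) ^ x i + c = 0 →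
      ∑ i ∈ T, ε i * (p : ℤ) ^ x i ≠ 0) :
    ∃ M : ℕ, 1 ≤ M ∧ ∀ x : ι → ℕ, (M : ℤ) ∣ ∑ i, ε i * (p : ℤ) ^ x i + c →
      ∑ i, ε i * (p : ℤ) ^ x i + c = 0 := by
  classical
  set k := Fintype.card ι with hk
  set g := k + c.natAbs + 2 with hg
  have hg0 : 0 < g := by omega
  have hp1 : (1 : ℤ) ≤ p := by exact_mod_cast (by omega : 1 ≤ p)
  have hpg : (k : ℤ) + |c| + 2 < (p : ℤ) ^ g := by
    have h1 : g < p ^ g := Nat.lt_pow_self (by omega)
    have h2 : (g : ℤ) < (p : ℤ) ^ g := by exact_mod_cast h1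
    rw [hg] at h2
    push_cast at h2
    rwa [hg]
  set N := (k + 1) * g with hN
  have hN0 : 0 < N := by positivity
  have hpN : 1 < p ^ N := Nat.one_lt_pow hN0.ne' (by omega)
  refine ⟨p ^ N * (p ^ N - 1), Nat.mul_pos (by omega) (by omega), fun x hx => ?_⟩
  rw [Nat.cast_mul, Nat.cast_sub hpN.le] at hx
  push_cast at hx
  obtain ⟨j, hj, hgap⟩ := gap x hg0
  have hjN : j * g + g ≤ N := by rw [hN]; nlinarith
  set T := ({i | j * g + g ≤ x i} : Finset ι) with hT
  have hsplit : ∀ y : ι → ℕ, ∑ i, ε i * (p : ℤ) ^ y i + c =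
      ∑ i ∈ T, ε i * (p : ℤ) ^ y i + (∑ i ∈ Tᶜ, ε i * (p : ℤ) ^ y i + c) := fun y => by
    rw [← add_assoc, sum_add_sum_compl]
  have hsmall : ∑ i ∈ Tᶜ, ε i * (p : ℤ) ^ x i + c = 0 := by
    have h1 : (p : ℤ) ^ (j * g + g) ∣ ∑ i ∈ T, ε i * (p : ℤ) ^ x i :=
      dvd_sum fun i hi => (pow_dvd_pow _ (mem_filter.1 hi).2).mul_left _
    have h2 := ((pow_dvd_pow (p : ℤ) hjN).trans (dvd_mul_right _ _)).trans hx
    rw [hsplit] at h2
    refine Int.eq_zero_of_abs_lt_dvd ((dvd_add_right h1).1 h2) ?_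
    have h3 := abs_sum_le hp hε Tᶜ x (j * g) fun i hi => by
      have := hgap i
      simp only [hT, mem_compl, mem_filter, mem_univ, true_and] at hi
      omega
    have h4 : (1 : ℤ) ≤ (p : ℤ) ^ (j * g) := one_le_pow₀ hp1
    have h5 := abs_add_le (∑ i ∈ Tᶜ, ε i * (p : ℤ) ^ x i) c
    rw [pow_add]
    nlinarith [abs_nonneg c]
  rw [hsplit, hsmall, add_zero] at hx ⊢
  rcases T.eq_empty_or_nonempty with e | hne
  · simp [e]
  exfalso
  obtain ⟨j', hj', hgap'⟩ := gap (fun i => x i % N) hg0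
  have hjN' : j' * g + g ≤ N := by rw [hN]; nlinarith
  set s := N - (j' * g + g) with hs
  set z : ι → ℕ := fun i => (x i % N + s) % N with hz
  have hzle : ∀ i, z i ≤ N - g := fun i => by
    have h1 := Nat.mod_lt (x i) hN0
    rcases hgap' i with h | h
    · exact (Nat.mod_le _ _).trans (by omega)
    · have : z i = x i % N + s - N := by
        rw [hz]
        simp only
        rw [Nat.mod_eq_sub_mod (by omega), Nat.mod_eq_of_lt (by omega)]
      omega
  have hmod : ∀ n : ℕ, (p : ℤ) ^ N - 1 ∣ (p : ℤ) ^ n - (p : ℤ) ^ (n % N) := fun n => by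
    conv_rhs => rw [← Nat.div_add_mod n N, pow_add, pow_mul, Nat.div_add_mod]
    have := (sub_one_dvd_pow_sub_one ((p : ℤ) ^ N) (n / N)).mul_right ((p : ℤ) ^ (n % N))
    rwa [sub_mul, one_mul] at this
  have hz0 : ∑ i ∈ T, ε i * (p : ℤ) ^ z i = 0 := by
    have h1 : (p : ℤ) ^ N - 1 ∣ (∑ i ∈ T, ε i * (p : ℤ) ^ x i) * (p : ℤ) ^ s -
        ∑ i ∈ T, ε i * (p : ℤ) ^ z i := by
      rw [sum_mul, ← sum_sub_distrib]
      refine dvd_sum fun i _ => ?_
      have h2 := hmod (x i + s)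
      rw [← Nat.mod_add_mod] at h2
      rw [mul_assoc, ← pow_add, ← mul_sub]
      exact h2.mul_left _
    have h2 := ((dvd_mul_left _ _).trans hx).mul_right ((p : ℤ) ^ s)
    refine Int.eq_zero_of_abs_lt_dvd ((dvd_sub_right h2).1 h1) ?_
    have h3 := abs_sum_le hp hε T z (N - g) fun i _ => hzle i
    have h4 : (1 : ℤ) ≤ (p : ℤ) ^ (N - g) := one_le_pow₀ hp1
    have h5 : (p : ℤ) ^ N = (p : ℤ) ^ (N - g) * (p : ℤ) ^ g := by
      rw [← pow_add, Nat.sub_add_cancel (by omega)]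
    rw [h5]
    nlinarith [abs_nonneg c]
  have e1 : ∑ i ∈ T, ε i * (p : ℤ) ^ (if i ∈ T then z i else x i) = 0 :=
    (sum_congr rfl fun i hi => by rw [if_pos hi]).trans hz0
  refine hnd (fun i => if i ∈ T then z i else x i) T hne ?_ e1
  rw [hsplit, e1, zero_add, ← hsmall]
  exact congrArg (· + c) (sum_congr rfl fun i hi => by rw [if_neg (mem_compl.1 hi)])

/-- The exponents of the solutions of a reducible equation are bounded. -/
theorem lt_of_red {ι : Type} [Fintype ι] {p : ι → ℕ} {ε : ι → ℤ} {M : ℕ} (hM : 1 ≤ M)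
    (h : ∀ x : ι → ℕ, (M : ℤ) ∣ ∑ i, ε i * (p i : ℤ) ^ x i → ∑ i, ε i * (p i : ℤ) ^ x i = 0)
    {x : ι → ℕ} (hx : ∑ i, ε i * (p i : ℤ) ^ x i = 0) {i : ι} (hp : 2 ≤ p i)
    (hε : ε i = 1 ∨ ε i = -1) : x i < M := by
  classical
  by_contra hi
  have hi' : M ≤ x i := not_lt.1 hi
  have : NeZero M := ⟨by omega⟩
  obtain ⟨a, b, hab, hb, e⟩ : ∃ a b, a < b ∧ b ≤ M ∧ (p i : ZMod M) ^ a = (p i : ZMod M) ^ b := by
    obtain ⟨a, ha, b, hb, hne, e⟩ := exists_ne_map_eq_of_card_lt_of_maps_to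
      (s := range (M + 1)) (t := (univ : Finset (ZMod M))) (by simp)
      (f := fun n => (p i : ZMod M) ^ n) fun _ _ => mem_univ _
    rw [mem_range] at ha hb
    rcases lt_or_gt_of_ne hne with h' | h'
    · exact ⟨a, b, h', by omega, e⟩
    · exact ⟨b, a, h', by omega, e.symm⟩
  have e1 : (p i : ZMod M) ^ (x i + (b - a)) = (p i : ZMod M) ^ x i := by
    rw [show x i + (b - a) = x i - a + b by omega, pow_add, ← e, ← pow_add,
      Nat.sub_add_cancel (by omega)]
  have e2 : ∑ j, ε j * (p j : ℤ) ^ update x i (x i + (b - a)) j =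
      ε i * ((p i : ℤ) ^ (x i + (b - a)) - (p i : ℤ) ^ x i) := by
    rw [← add_sum_erase _ _ (mem_univ i)] at hx ⊢
    rw [update_self, sum_congr rfl (g := fun j => ε j * (p j : ℤ) ^ x j)
      fun j hj => by rw [update_of_ne (ne_of_mem_erase hj)]]
    linear_combination hx
  have e3 := h (update x i (x i + (b - a))) (by
    rw [e2]
    refine Dvd.dvd.mul_left ?_ _
    rw [← ZMod.intCast_zmod_eq_zero_iff_dvd]
    push_cast
    rw [e1, sub_self])
  rw [e2, mul_eq_zero, sub_eq_zero] at e3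
  rcases e3 with e3 | e3
  · omega
  · have := pow_right_injective₀ (a := (p i : ℤ)) (by omega) (by omega) e3
    omega

/-! ### Sparse sums on the multiplicative group of a finite field -/

/-- a sum of `n` characters that is not zero is nonzero on a part at least `2 ^ (-n)` -/
lemma supp_ge {F κ : Type} [Field F] [Fintype F] [DecidableEq F] (y : κ → ℕ) (s : Finset κ) :
    ∀ a : κ → F, (∃ u : Fˣ, ∑ j ∈ s, a j * (u : F) ^ y j ≠ 0) →
      Fintype.card Fˣ ≤ 2 ^ #s * #{u : Fˣ | ∑ j ∈ s, a j * (u : F) ^ y j ≠ 0} := by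
  classical
  induction s using Finset.induction_on with
  | empty => simp
  | insert i s hi ih =>
    rintro a ⟨u₀, hu₀⟩
    have key : ∀ w u : Fˣ, ∑ j ∈ s, (a j * ((w : F) ^ y j - (w : F) ^ y i)) * (u : F) ^ y j =
        ∑ j ∈ insert i s, a j * ((u * w : Fˣ) : F) ^ y j -
          (w : F) ^ y i * ∑ j ∈ insert i s, a j * (u : F) ^ y j := fun w u => by
      rw [mul_sum, ← sum_sub_distrib, sum_insert hi]
      simp only [Units.val_mul, mul_pow]
      rw [show a i * ((u : F) ^ y i * (w : F) ^ y i) - (w : F) ^ y i * (a i * (u : F) ^ y i) = 0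
        by ring, zero_add]
      exact sum_congr rfl fun j _ => by ring
    set S := ({u : Fˣ | ∑ j ∈ insert i s, a j * (u : F) ^ y j ≠ 0} : Finset Fˣ) with hS
    by_cases h : ∃ w u : Fˣ,
        ∑ j ∈ s, (a j * ((w : F) ^ y j - (w : F) ^ y i)) * (u : F) ^ y j ≠ 0
    · obtain ⟨w, hw⟩ := h
      refine (ih _ hw).trans ?_
      rw [card_insert_of_notMem hi, pow_succ, mul_assoc]
      refine Nat.mul_le_mul_left _ ?_
      have h1 : ({u : Fˣ | ∑ j ∈ s, (a j * ((w : F) ^ y j - (w : F) ^ y i)) * (u : F) ^ y j ≠ 0} :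
          Finset Fˣ) ⊆ S ∪ S.image (· * w⁻¹) := by
        intro u hu
        by_contra hn
        rw [mem_union, not_or] at hn
        have h2 : u * w ∉ S := fun h' => hn.2 (mem_image.2 ⟨_, h', by simp⟩)
        have h3 := hn.1
        simp only [hS, mem_filter, mem_univ, true_and, not_not] at h2 h3 hu
        exact hu (by rw [key, h2, h3, mul_zero, sub_zero])
      have := (card_le_card h1).trans (card_union_le _ _)
      have := card_image_le (s := S) (f := (· * w⁻¹))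
      omega
    · push Not at h
      have h1 : S = univ := eq_univ_of_forall fun v => by
        have h2 := h (u₀⁻¹ * v) u₀
        rw [key, mul_inv_cancel_left, sub_eq_zero] at h2
        simp only [hS, mem_filter, mem_univ, true_and]
        rw [h2]
        exact mul_ne_zero (pow_ne_zero _ (Units.ne_zero _)) hu₀
      rw [h1, card_univ]
      exact Nat.le_mul_of_pos_left _ (by positivity)

/-- a signed sum of powers that is constant on the units cancels -/
lemma cancel {κ : Type} [Fintype κ] {ε : κ → ℤ} (hε : ∀ i, ε i = 1 ∨ ε i = -1) (y : κ → ℕ)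
    {l : ℕ} [Fact l.Prime] (hk : Fintype.card κ < l) (v : ZMod l)
    (h : ∀ u : (ZMod l)ˣ, ∑ j, (ε j : ZMod l) * (u : ZMod l) ^ y j = v) {R : Type} [CommRing R]
    (Q : R) (hQ : Q ^ (l - 1) = 1) : ∑ j, (ε j : R) * Q ^ y j = ∑ j, (ε j : R) := by
  classical
  have hl : 0 < l - 1 := by have := (Fact.out : l.Prime).two_le; omega
  have hred : ∀ {A : Type} [Monoid A] (a : A), a ^ (l - 1) = 1 → ∀ n, a ^ n = a ^ (n % (l - 1)) :=
    fun a ha n => by
      conv_lhs => rw [← Nat.div_add_mod n (l - 1), pow_add, pow_mul, ha, one_pow, one_mul]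
  have hP : (∑ j, Polynomial.monomial (y j % (l - 1)) (ε j : ZMod l) - Polynomial.C v) = 0 := by
    refine Polynomial.eq_zero_of_natDegree_lt_card_of_eval_eq_zero _
      (f := fun u : (ZMod l)ˣ => (u : ZMod l)) Units.val_injective (fun u => ?_) ?_
    · rw [Polynomial.eval_sub, Polynomial.eval_finsetSum, Polynomial.eval_C, ← h u, sub_eq_zero]
      refine sum_congr rfl fun j _ => ?_
      rw [Polynomial.eval_monomial, ← hred _ (ZMod.pow_card_sub_one_eq_one u.ne_zero)]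
    · rw [Polynomial.natDegree_sub_C, ZMod.card_units]
      refine lt_of_le_of_lt (Polynomial.natDegree_sum_le_of_forall_le _ _ (n := l - 1 - 1)
        fun j _ => (Polynomial.natDegree_monomial_le _).trans ?_) (by omega)
      have := Nat.mod_lt (y j) hl
      omega
  have hc : ∀ ρ, ρ ≠ 0 → ∑ j with y j % (l - 1) = ρ, ε j = 0 := fun ρ hρ => by
    have h1 := congrArg (fun P => Polynomial.coeff P ρ) hP
    simp only [Polynomial.coeff_sub, Polynomial.finsetSum_coeff, Polynomial.coeff_monomial,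
      Polynomial.coeff_C, if_neg hρ, sub_zero, Polynomial.coeff_zero] at h1
    rw [← sum_filter, ← Int.cast_sum, ZMod.intCast_zmod_eq_zero_iff_dvd] at h1
    refine Int.eq_zero_of_abs_lt_dvd h1 ?_
    have h2 := abs_sum_le (p := 2) le_rfl hε {j | y j % (l - 1) = ρ} (fun _ => 0) 0
      fun _ _ => le_rfl
    simp only [pow_zero, mul_one] at h2
    exact h2.trans_lt (by exact_mod_cast hk)
  have hm : ∀ j ∈ (univ : Finset κ), y j % (l - 1) ∈ range (l - 1) := fun j _ =>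
    mem_range.2 (Nat.mod_lt _ hl)
  rw [← sum_fiberwise_of_maps_to hm, ← sum_fiberwise_of_maps_to hm]
  refine sum_congr rfl fun ρ _ => ?_
  rw [sum_congr rfl (g := fun j => (ε j : R) * Q ^ ρ) fun j hj => by
    rw [hred Q hQ, (mem_filter.1 hj).2], ← sum_mul]
  rcases eq_or_ne ρ 0 with rfl | hρ
  · rw [pow_zero, mul_one]
  · rw [← Int.cast_sum, hc ρ hρ, Int.cast_zero, zero_mul]

/-- a signed sum of powers that does not cancel takes each value rarely -/
lemma rare {κ : Type} [Fintype κ] {ε : κ → ℤ} (y : κ → ℕ) {l : ℕ} [Fact l.Prime] (v : ZMod l)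
    (h : ∃ u : (ZMod l)ˣ, ∑ j, (ε j : ZMod l) * (u : ZMod l) ^ y j ≠ v) :
    (#((range l).filter fun u : ℕ =>
      (u : ZMod l) ≠ 0 ∧ ∑ j, (ε j : ZMod l) * (u : ZMod l) ^ y j = v) : ℝ) ≤
      (1 - 1 / 2 ^ (Fintype.card κ + 1)) * (l - 1 : ℕ) := by
  classical
  have h1 := supp_ge (F := ZMod l) (fun o : Option κ => o.elim 0 y) univ
    (fun o => o.elim (-v) fun j => (ε j : ZMod l)) (by
      obtain ⟨u, hu⟩ := h
      refine ⟨u, ?_⟩
      simp only [Fintype.sum_option, Option.elim, pow_zero, mul_one]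
      intro e
      exact hu (by linear_combination e))
  simp only [Fintype.sum_option, Option.elim, pow_zero, mul_one, card_univ, Fintype.card_option,
    ZMod.card_units] at h1
  have h2 : #((range l).filter fun u : ℕ =>
      (u : ZMod l) ≠ 0 ∧ ∑ j, (ε j : ZMod l) * (u : ZMod l) ^ y j = v) ≤
      #{u : (ZMod l)ˣ | ¬ -v + ∑ j, (ε j : ZMod l) * (u : ZMod l) ^ y j ≠ 0} := by
    refine le_trans (card_le_card_of_injOn (fun u : ℕ => (u : ZMod l))
      (t := ({u : (ZMod l)ˣ | ¬ -v + ∑ j, (ε j : ZMod l) * (u : ZMod l) ^ y j ≠ 0} :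
        Finset (ZMod l)ˣ).image Units.val) ?_ ?_) card_image_le
    · intro u hu
      simp only [coe_filter, Set.mem_ofPred_eq] at hu
      refine mem_coe.2 (mem_image.2 ⟨Units.mk0 _ hu.2.1, mem_filter.2 ⟨mem_univ _, ?_⟩, rfl⟩)
      rw [not_not, Units.val_mk0, hu.2.2, neg_add_cancel]
    · intro u hu w hw h
      simp only [coe_filter, Set.mem_ofPred_eq, mem_range] at hu hw
      have := congrArg ZMod.val h
      simpa only [ZMod.val_cast_of_lt hu.1, ZMod.val_cast_of_lt hw.1] using this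
  have h3 := card_filter_add_card_filter_not (s := (univ : Finset (ZMod l)ˣ))
    fun u => -v + ∑ j, (ε j : ZMod l) * (u : ZMod l) ^ y j ≠ 0
  rw [card_univ, ZMod.card_units] at h3
  have h4 := (Nat.cast_le (α := ℝ)).2 h1
  have h5 := (Nat.cast_le (α := ℝ)).2 h2
  have h6 := congrArg (Nat.cast (R := ℝ)) h3
  rw [Nat.cast_mul, Nat.cast_pow, Nat.cast_ofNat, ← div_le_iff₀' (by positivity)] at h4
  rw [Nat.cast_add] at h6
  rw [sub_mul, one_mul, one_div_mul_eq_div]
  linarith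

/-- few primes satisfy rare conditions modulo many primes -/
lemma few (L : Finset ℕ) (hL : ∀ l ∈ L, l.Prime) {θ : ℝ} :
    ∀ᶠ X : ℕ in atTop, ∀ (A : ∀ l : ℕ, ZMod l → Prop) [∀ l, DecidablePred (A l)],
      (∀ l ∈ L, (#((range l).filter fun u : ℕ => (u : ZMod l) ≠ 0 ∧ A l u) : ℝ) ≤
        θ * (l - 1 : ℕ)) →
      (#((PR X).filter fun q : ℕ => ∀ l ∈ L, (q : ZMod l) ≠ 0 ∧ A l q) : ℝ) ≤
        3 * θ ^ #L * #(PR X) := by
  set M := ∏ l ∈ L, l with hM
  have hM0 : 0 < M := prod_pos fun l hl => (hL l hl).pos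
  have : NeZero M := ⟨hM0.ne'⟩
  have h1 : ∀ᶠ X : ℕ in atTop, ∀ a : (ZMod M)ˣ,
      (#(PA (a : ZMod M) X) : ℝ) ≤ 3 * (M.totient : ℝ)⁻¹ * #(PR X) :=
    eventually_all.2 fun a => PA_le a.isUnit
  filter_upwards [h1] with X hX A _ hA
  set S := ({u ∈ range M | ∀ l ∈ L, (u : ZMod l) ≠ 0 ∧ A l u} : Finset ℕ) with hS
  have h2 : (#S : ℝ) ≤ θ ^ #L * M.totient := by
    rw [hS, hM, count_prod L hL (fun l u => (u : ZMod l) ≠ 0 ∧ A l u)
      (fun l _ u => by simp), totient_prod L hL, ← prod_const, Nat.cast_prod, Nat.cast_prod,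
      ← prod_mul_distrib]
    exact prod_le_prod (fun _ _ => by positivity) hA
  have h3 : ({q ∈ PR X | ∀ l ∈ L, (q : ZMod l) ≠ 0 ∧ A l q} : Finset ℕ) ⊆
      S.biUnion fun u => PA (u : ZMod M) X := by
    intro q hq
    simp only [mem_filter] at hq
    simp only [mem_biUnion]
    refine ⟨q % M, ?_, mem_filter.2 ⟨mem_filter.2 hq.1, by simp⟩⟩
    simp only [hS, mem_filter, mem_range]
    refine ⟨Nat.mod_lt _ hM0, fun l hl => ?_⟩
    have : ((q % M : ℕ) : ZMod l) = q := by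
      rw [ZMod.natCast_eq_natCast_iff']
      exact Nat.mod_mod_of_dvd q (dvd_prod_of_mem (fun l : ℕ => l) hl)
    rw [this]
    exact hq.2 l hl
  have h4 : ∀ u ∈ S, (#(PA (u : ZMod M) X) : ℝ) ≤ 3 * (M.totient : ℝ)⁻¹ * #(PR X) := by
    intro u hu
    simp only [hS, mem_filter] at hu
    have hc : u.Coprime M := Nat.Coprime.prod_right fun l hl => by
      rw [Nat.coprime_comm, (hL l hl).coprime_iff_not_dvd, ← ZMod.natCast_eq_zero_iff]
      exact (hu.2 l hl).1
    exact hX (ZMod.unitOfCoprime u hc)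
  have h5 := (card_le_card h3).trans card_biUnion_le
  have hφ : (0 : ℝ) < M.totient := by exact_mod_cast Nat.totient_pos.2 hM0
  have h6 : (#S : ℝ) * (M.totient : ℝ)⁻¹ ≤ θ ^ #L := by
    rwa [← div_eq_mul_inv, div_le_iff₀ hφ]
  refine le_trans (by exact_mod_cast h5) ((sum_le_card_nsmul _ _ _ h4).trans ?_)
  rw [nsmul_eq_mul]
  calc _ = 3 * ((#S : ℝ) * (M.totient : ℝ)⁻¹) * #(PR X) := by ring
    _ ≤ _ := by gcongr

lemma pow_red' {R : Type} [Monoid R] {N : ℕ} {a : R} (ha : a ^ N = 1) (x : ℕ) :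
    a ^ red N x = a ^ x := by
  unfold red
  split_ifs with h
  · rw [h]
  · have e : x = N * ((x - 1) / N) + ((x - 1) % N + 1) := by
      have := Nat.div_add_mod (x - 1) N
      omega
    conv_rhs => rw [e, pow_add, pow_mul, ha, one_pow, one_mul]

lemma numeric {t n N K : ℕ} (hN : 0 < N) (h : (N + 1) ^ (2 ^ t * K) ≤ 2 ^ n) :
    ((N : ℝ) + 1) ^ K * (1 - 1 / 2 ^ t) ^ n ≤ 1 := by
  have h0 : (0 : ℝ) ≤ 1 - 1 / 2 ^ t :=
    sub_nonneg.2 (div_le_one_of_le₀ (one_le_pow₀ one_le_two) (by positivity))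
  have h1 : ((1 : ℝ) - 1 / 2 ^ t) ^ 2 ^ t ≤ 1 / 2 := by
    have h2 := Real.one_sub_div_pow_le_exp_neg (n := 2 ^ t) (t := 1)
      (by exact_mod_cast Nat.one_le_two_pow)
    push_cast at h2
    refine h2.trans ?_
    rw [Real.exp_neg, one_div]
    exact inv_anti₀ two_pos (by linarith [Real.add_one_le_exp (1 : ℝ)])
  refine (pow_le_one_iff_of_nonneg (by positivity) (n := 2 ^ t) (by positivity)).1 ?_
  have h3 : ((N : ℝ) + 1) ^ (2 ^ t * K) ≤ 2 ^ n := by exact_mod_cast h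
  rw [mul_pow, ← pow_mul, mul_comm K, ← pow_mul, mul_comm n, pow_mul _ _ n]
  refine (mul_le_mul h3 (pow_le_pow_left₀ (by positivity) h1 n) (by positivity)
    (by positivity)).trans (le_of_eq ?_)
  rw [← mul_pow]
  norm_num

open Classical in
/-- For almost all primes `q` a block of terms with base `q` acts as the sum of its signs. -/
theorem key {ι κ : Type} [Fintype ι] [Fintype κ] (p : ι → ℕ) (δ : ι → ℤ) (c : ℤ) {ε : κ → ℤ}
    (hε : ∀ i, ε i = 1 ∨ ε i = -1) (M0 : ℕ) (hM0 : 1 ≤ M0) (η : ℝ) (hη : 0 < η) :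
    ∀ᶠ X : ℕ in atTop, (#((PR X).filter fun q : ℕ => ¬ (Fintype.card κ + 1 < q ∧ ∃ M : ℕ, 1 ≤ M ∧
      ∀ (x : ι → ℕ) (y : κ → ℕ),
        (M : ℤ) ∣ ∑ i, δ i * (p i : ℤ) ^ x i + ∑ j, ε j * (q : ℤ) ^ y j + c →
        (M0 : ℤ) ∣ ∑ j, ε j * (q : ℤ) ^ y j - ∑ j, ε j)) : ℝ) ≤ η * #(PR X) := by
  set t := Fintype.card κ + 1 with ht
  obtain ⟨K, hK⟩ := exists_nat_ge (6 / η)
  set J := Fintype.card ι + Fintype.card κ with hJ
  obtain ⟨N, hN, L, hL, hKL⟩ := exists_many_shifted (M0.totient * t)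
    (Nat.mul_pos (Nat.totient_pos.2 hM0) (by omega)) (2 ^ t * (J + K + 1))
  have hKL' : (N + 1) ^ (2 ^ t * (J + K + 1)) ≤ 2 ^ #L :=
    (Nat.le_mul_of_pos_left _ (by positivity)).trans hKL
  have hLne : L.Nonempty := by
    rw [nonempty_iff_ne_empty]
    rintro rfl
    have h1 : 2 ≤ (N + 1) ^ (2 ^ t * (J + K + 1)) :=
      (by omega : 2 ≤ N + 1).trans (Nat.le_self_pow (by positivity) _)
    simp only [card_empty, pow_zero] at hKL'
    omega
  have hN0 : M0.totient ∣ N := by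
    obtain ⟨l, hl⟩ := hLne
    exact ((dvd_mul_right _ _).trans (hL l hl).2.1).trans (hL l hl).2.2
  set M := ∏ l ∈ L, l with hM
  have hMpos : 0 < M := prod_pos fun l hl => (hL l hl).1.pos
  filter_upwards [few L (fun l hl => (hL l hl).1) (θ := 1 - 1 / 2 ^ t),
    PR_tendsto.eventually_ge_atTop (2 * ((M0 * M + t + 1 : ℕ) : ℝ) / η)] with X hX hX2
  set I := (Fintype.piFinset fun _ : ι => range (N + 1)) ×ˢ
    ((Fintype.piFinset fun _ : κ => range (N + 1)).filter fun y =>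
      ∃ Q : ZMod M0, Q ^ M0.totient = 1 ∧ ∑ j, (ε j : ZMod M0) * Q ^ y j ≠ ∑ j, (ε j : ZMod M0))
    with hI
  have hsub : ({q ∈ PR X | ¬ (t < q ∧ ∃ M : ℕ, 1 ≤ M ∧ ∀ (x : ι → ℕ) (y : κ → ℕ),
        (M : ℤ) ∣ ∑ i, δ i * (p i : ℤ) ^ x i + ∑ j, ε j * (q : ℤ) ^ y j + c →
        (M0 : ℤ) ∣ ∑ j, ε j * (q : ℤ) ^ y j - ∑ j, ε j)} : Finset ℕ) ⊆
      range (M0 * M + t + 1) ∪ I.biUnion fun w => {q ∈ PR X | ∀ l ∈ L, (q : ZMod l) ≠ 0 ∧
        ∑ j, (ε j : ZMod l) * (q : ZMod l) ^ w.2 j =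
          ((-(∑ i, δ i * (p i : ℤ) ^ w.1 i + c) : ℤ) : ZMod l)} := by
    intro q hq
    rw [mem_filter] at hq
    obtain ⟨hq1, hq2⟩ := hq
    have hqp : q.Prime := (mem_filter.1 hq1).2
    by_contra hcon
    rw [mem_union, not_or, mem_range, mem_biUnion] at hcon
    obtain ⟨hbig, hgood⟩ := hcon
    have hMM : 0 < M0 * M := Nat.mul_pos hM0 hMpos
    have hndvd : ¬ q ∣ M0 * M := fun h => by
      have := Nat.le_of_dvd hMM h
      omega
    refine hq2 ⟨by omega, M, hMpos, fun x y hd => ?_⟩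
    by_contra hy
    have hcop : q.Coprime M0 := hqp.coprime_iff_not_dvd.2 fun h => hndvd (h.mul_right _)
    have hQ : (q : ZMod M0) ^ M0.totient = 1 := by
      have := (ZMod.natCast_eq_natCast_iff _ _ _).2 (Nat.ModEq.pow_totient hcop)
      push_cast at this
      exact this
    have hQN : (q : ZMod M0) ^ N = 1 := by
      obtain ⟨r, hr⟩ := hN0
      rw [hr, pow_mul, hQ, one_pow]
    refine hgood ⟨(fun i => red N (x i), fun j => red N (y j)), ?_,
      mem_filter.2 ⟨hq1, fun l hl => ?_⟩⟩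
    · simp only [hI, mem_product, Fintype.mem_piFinset, mem_filter]
      refine ⟨fun i => red_le hN _, fun j => red_le hN _, q, hQ, fun h => hy ?_⟩
      rw [← ZMod.intCast_zmod_eq_zero_iff_dvd]
      push_cast
      simp only [pow_red' hQN] at h
      rw [h, sub_self]
    · have hlM : l ∣ M := dvd_prod_of_mem (fun l : ℕ => l) hl
      obtain ⟨hl1, -, hl3⟩ := hL l hl
      refine ⟨?_, ?_⟩
      · rw [Ne, ZMod.natCast_eq_zero_iff, Nat.prime_dvd_prime_iff_eq hl1 hqp]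
        rintro rfl
        exact hndvd (hlM.mul_left _)
      · have h1 := (Int.natCast_dvd_natCast.2 hlM).trans hd
        rw [← ZMod.intCast_zmod_eq_zero_iff_dvd] at h1
        push_cast at h1 ⊢
        simp only [pow_red hl1 hl3]
        linear_combination h1
  have h1 := (card_le_card hsub).trans ((card_union_le _ _).trans
    (Nat.add_le_add_left card_biUnion_le _))
  rw [card_range] at h1
  have h2 : ∀ w ∈ I, (#{q ∈ PR X | ∀ l ∈ L, (q : ZMod l) ≠ 0 ∧
        ∑ j, (ε j : ZMod l) * (q : ZMod l) ^ w.2 j =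
          ((-(∑ i, δ i * (p i : ℤ) ^ w.1 i + c) : ℤ) : ZMod l)} : ℝ) ≤
        3 * (1 - 1 / 2 ^ t) ^ #L * #(PR X) := by
    intro w hw
    simp only [hI, mem_product, mem_filter] at hw
    obtain ⟨-, -, Q, hQ, hne⟩ := hw
    refine hX (fun l u => ∑ j, (ε j : ZMod l) * u ^ w.2 j =
      ((-(∑ i, δ i * (p i : ℤ) ^ w.1 i + c) : ℤ) : ZMod l)) fun l hl => ?_
    obtain ⟨hl1, hl2, -⟩ := hL l hl
    have := Fact.mk hl1
    refine rare w.2 _ ?_
    by_contra hall
    push Not at hall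
    have hl0 : 0 < l - 1 := by have := hl1.two_le; omega
    have h3 : t ≤ l - 1 := Nat.le_of_dvd hl0 ((dvd_mul_left _ _).trans hl2)
    obtain ⟨r, hr⟩ := (dvd_mul_right _ _).trans hl2
    exact hne (cancel hε w.2 (by omega) _ hall Q (by rw [hr, pow_mul, hQ, one_pow]))
  have h3 : #I ≤ (N + 1) ^ J := by
    rw [hI, card_product, Fintype.card_piFinset, hJ, pow_add]
    simp only [card_range, prod_const, card_univ]
    gcongr
    refine (card_filter_le _ _).trans (le_of_eq ?_)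
    simp [Fintype.card_piFinset]
  have h0 : (0 : ℝ) ≤ 1 - 1 / 2 ^ t :=
    sub_nonneg.2 (div_le_one_of_le₀ (one_le_pow₀ one_le_two) (by positivity))
  have h4 : (#I : ℝ) * (3 * (1 - 1 / 2 ^ t) ^ #L) ≤ η / 2 := by
    have h5 := numeric hN hKL'
    have h6 : (#I : ℝ) ≤ ((N : ℝ) + 1) ^ J := by exact_mod_cast h3
    have h7 : (K : ℝ) ≤ ((N : ℝ) + 1) ^ (K + 1) := by
      have : K < (N + 1) ^ (K + 1) := (Nat.lt_succ_self K).trans (Nat.lt_pow_self (by omega))
      exact_mod_cast this.le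
    rw [div_le_iff₀ hη] at hK
    rw [add_assoc, pow_add] at h5
    have h8 : 0 ≤ ((1 : ℝ) - 1 / 2 ^ t) ^ #L := by positivity
    have h9 : (#I : ℝ) * (1 - 1 / 2 ^ t) ^ #L * K ≤ 1 := by
      refine le_trans ?_ h5
      rw [mul_right_comm]
      gcongr
    have h10 : 0 ≤ (#I : ℝ) * (1 - 1 / 2 ^ t) ^ #L := by positivity
    nlinarith
  have h5 := sum_le_card_nsmul _ _ _ h2
  rw [nsmul_eq_mul, ← mul_assoc] at h5
  have h6 := mul_le_mul_of_nonneg_right h4 (show (0 : ℝ) ≤ #(PR X) by positivity)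
  rw [div_le_iff₀ hη] at hX2
  refine le_trans (Nat.cast_le.2 h1) ?_
  rw [Nat.cast_add, Nat.cast_sum]
  linarith

end Pool.Agent.Lib.MP_b7b898_nt.Shape
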