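import Mathlib

/-!
Lemmas on three-term purely exponential congruences.
-/

set_option autoImplicit false

namespace Pool.Agent.Lib.MP_b7b898_nt

/-- `2 ^ x + q ^ y + r ^ z` is never divisible by `8 q r` for distinct odd primes `q`, `r`. -/
theorem two_plus_plus {q r : ℕ} (hq : q.Prime) (hr : r.Prime) (hq2 : q ≠ 2) (hr2 : r ≠ 2)
    (hqr : q ≠ r) (x y z : ℕ) : ¬ ((8 * q * r : ℕ) : ℤ) ∣ 2 ^ x + (q : ℤ) ^ y + (r : ℤ) ^ z := by
  intro h
  have := Fact.mk hq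
  have := Fact.mk hr
  have hqo : q % 2 = 1 := hq.eq_two_or_odd.resolve_left hq2
  have hro : r % 2 = 1 := hr.eq_two_or_odd.resolve_left hr2
  have h8 : (8 : ℤ) ∣ 2 ^ x + (q : ℤ) ^ y + (r : ℤ) ^ z :=
    Dvd.dvd.trans ⟨q * r, by push_cast; ring⟩ h
  have hdq : (q : ℤ) ∣ 2 ^ x + (q : ℤ) ^ y + (r : ℤ) ^ z :=
    Dvd.dvd.trans ⟨8 * r, by push_cast; ring⟩ h
  have hdr : (r : ℤ) ∣ 2 ^ x + (q : ℤ) ^ y + (r : ℤ) ^ z :=
    Dvd.dvd.trans ⟨8 * q, by push_cast; ring⟩ h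
  -- Legendre symbol consequence
  have key : ∀ (a b : ℕ) [Fact a.Prime] (m n : ℕ), a ≠ 2 → m ≠ 0 →
      (a : ℤ) ∣ 2 ^ x + (a : ℤ) ^ m + (b : ℤ) ^ n →
      (ZMod.χ₈ (a : ZMod 8)) ^ x = ZMod.χ₄ (a : ZMod 4) * (legendreSym a b) ^ n := by
    intro a b _ m n ha2 hm hd
    have h1 : (a : ℤ) ∣ 2 ^ x - (-1) * (b : ℤ) ^ n := by
      have h2 : (a : ℤ) ∣ (a : ℤ) ^ m := dvd_pow_self _ hm
      have := Dvd.dvd.sub hd h2
      have h3 : 2 ^ x + (a : ℤ) ^ m + (b : ℤ) ^ n - (a : ℤ) ^ m = 2 ^ x - (-1) * (b : ℤ) ^ n := by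
        ring
      rwa [h3] at this
    have h4 : legendreSym a (2 ^ x) = legendreSym a ((-1) * (b : ℤ) ^ n) := by
      rw [legendreSym.mod a (2 ^ x), legendreSym.mod a ((-1) * (b : ℤ) ^ n)]
      congr 1
      exact (Int.emod_emod_of_dvd _ (dvd_refl _)).symm.trans ((Int.emod_emod_of_dvd _ (dvd_refl _)).trans (Int.ModEq.eq (Int.modEq_iff_dvd.2 h1).symm))
    have hpow : ∀ (c : ℤ) (k : ℕ), legendreSym a (c ^ k) = legendreSym a c ^ k := fun c k =>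
      map_pow (legendreSym.hom a) c k
    rw [legendreSym.mul, hpow, hpow, legendreSym.at_two ha2, legendreSym.at_neg_one ha2] at h4
    exact h4
  have hrq : legendreSym q r = 1 ∨ legendreSym q r = -1 := by
    apply legendreSym.eq_one_or_neg_one
    intro h0
    rw [Int.cast_natCast, ZMod.natCast_eq_zero_iff] at h0
    exact hqr ((Nat.prime_dvd_prime_iff_eq hq hr).1 h0)
  have hrec := legendreSym.quadratic_reciprocity' hq2 hr2
  -- residues modulo 8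
  have hpow8 : ∀ (a : ℕ) (m : ℕ), a % 2 = 1 →
      ((a : ℤ) ^ m) % 8 = if m % 2 = 0 then 1 else (a : ℤ) % 8 := by
    intro a m ha
    have hsq : ((a : ℤ) ^ 2) % 8 = 1 := by
      have : (a : ℤ) % 8 = 1 ∨ (a : ℤ) % 8 = 3 ∨ (a : ℤ) % 8 = 5 ∨ (a : ℤ) % 8 = 7 := by omega
      rcases this with h | h | h | h <;> simp [pow_two, Int.mul_emod, h]
    have h2 : ∀ k : ℕ, ((a : ℤ) ^ (2 * k)) % 8 = 1 := by
      intro k
      have h1 : (a : ℤ) ^ 2 ≡ 1 [ZMOD 8] := hsq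
      have h2 := h1.pow k
      rw [← pow_mul, one_pow] at h2
      exact h2
    rcases Nat.even_or_odd' m with ⟨k, rfl | rfl⟩
    · rw [if_pos (by omega)]; exact h2 k
    · rw [if_neg (by omega), pow_succ, Int.mul_emod, h2 k]; simp
  have hy8 := hpow8 q y hqo
  have hz8 := hpow8 r z hro
  have hx8 : (x = 0 ∧ (2 : ℤ) ^ x % 8 = 1) ∨ (x = 1 ∧ (2 : ℤ) ^ x % 8 = 2) ∨
      (x = 2 ∧ (2 : ℤ) ^ x % 8 = 4) ∨ (3 ≤ x ∧ (2 : ℤ) ^ x % 8 = 0) := by
    rcases Nat.lt_or_ge x 3 with h3 | h3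
    · interval_cases x <;> simp
    · right; right; right
      obtain ⟨k, rfl⟩ := Nat.exists_eq_add_of_le h3
      refine ⟨by omega, ?_⟩
      rw [pow_add]; simp
  have hχ8 : ∀ a : ℕ, a % 2 = 1 →
      ZMod.χ₈ (a : ZMod 8) = if a % 8 = 1 ∨ a % 8 = 7 then 1 else -1 := by
    intro a ha
    rw [ZMod.χ₈_nat_eq_if_mod_eight, if_neg (by omega)]
  have hχ4 : ∀ a : ℕ, a % 2 = 1 → ZMod.χ₄ (a : ZMod 4) = if a % 4 = 1 then 1 else -1 := by
    intro a ha
    rw [ZMod.χ₄_nat_eq_if_mod_four, if_neg (by omega)]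
  have hsq : ∀ (s : ℤ) (k : ℕ), (s = 1 ∨ s = -1) → s ^ k = if k % 2 = 0 then 1 else s := by
    intro s k hs
    rcases Nat.even_or_odd' k with ⟨j, rfl | rfl⟩
    · rw [if_pos (by omega), pow_mul]; rcases hs with rfl | rfl <;> simp
    · rw [if_neg (by omega), pow_succ, pow_mul]; rcases hs with rfl | rfl <;> simp
  have hqr' : legendreSym r q = 1 ∨ legendreSym r q = -1 := by
    apply legendreSym.eq_one_or_neg_one
    intro h0
    rw [Int.cast_natCast, ZMod.natCast_eq_zero_iff] at h0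
    exact hqr ((Nat.prime_dvd_prime_iff_eq hr hq).1 h0).symm
  have hsign : (-1 : ℤ) ^ (q / 2 * (r / 2)) = if q % 4 = 3 ∧ r % 4 = 3 then -1 else 1 := by
    split_ifs with h1
    · apply Odd.neg_one_pow
      exact Odd.mul (Nat.odd_iff.2 (by omega)) (Nat.odd_iff.2 (by omega))
    · apply Even.neg_one_pow
      rw [Nat.even_mul, Nat.even_iff, Nat.even_iff]
      omega
  rw [hsign] at hrec
  have k1 := fun hy : y ≠ 0 => key q r y z hq2 hy hdq
  have k2 := fun hz : z ≠ 0 => key r q z y hr2 hz (by rwa [add_right_comm])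
  rw [hχ8 q hqo, hχ4 q hqo, hsq _ z hrq, hsq _ x (by split_ifs <;> simp)] at k1
  rw [hχ8 r hro, hχ4 r hro, hsq _ y hqr', hsq _ x (by split_ifs <;> simp)] at k2
  have h8' : ((2 : ℤ) ^ x % 8 + (q : ℤ) ^ y % 8 + (r : ℤ) ^ z % 8) % 8 = 0 := by omega
  rw [hy8, hz8] at h8'
  generalize legendreSym q r = s at *
  generalize legendreSym r q = t at *
  generalize (2 : ℤ) ^ x % 8 = w at *
  have hq8 : q % 8 = 1 ∨ q % 8 = 3 ∨ q % 8 = 5 ∨ q % 8 = 7 := by omega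
  have hr8 : r % 8 = 1 ∨ r % 8 = 3 ∨ r % 8 = 5 ∨ r % 8 = 7 := by omega
  by_cases hy : y % 2 = 0 <;> by_cases hz : z % 2 = 0
  · rw [if_pos hy, if_pos hz] at h8'
    omega
  · have k2' := k2 (by omega)
    rw [if_pos hy, if_neg hz] at h8'
    rw [if_pos hy] at k2'
    split_ifs at k2' <;> omega
  · have k1' := k1 (by omega)
    rw [if_neg hy, if_pos hz] at h8'
    rw [if_pos hz] at k1'
    split_ifs at k1' <;> omega
  · have k1' := k1 (by omega)
    have k2' := k2 (by omega)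
    rw [if_neg hy, if_neg hz] at h8'
    rw [if_neg hz] at k1'
    rw [if_neg hy] at k2'
    split_ifs at k1' k2' hrec <;> omega

/-- All solutions of the three-term congruence modulo some `M` are bounded. -/
def Bdd3 (a b c : ℕ) (e f g : ℤ) : Prop :=
  ∃ M : ℕ, 1 ≤ M ∧ ∃ B : ℕ, ∀ x y z : ℕ,
    (M : ℤ) ∣ e * (a : ℤ) ^ x + f * (b : ℤ) ^ y + g * (c : ℤ) ^ z → x ≤ B ∧ y ≤ B ∧ z ≤ B

theorem Bdd3.swap12 {a b c : ℕ} {e f g : ℤ} (h : Bdd3 a b c e f g) : Bdd3 b a c f e g := by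
  obtain ⟨M, hM, B, h⟩ := h
  refine ⟨M, hM, B, fun x y z hd => ?_⟩
  have := h y x z (by rwa [add_comm (e * _)])
  tauto

theorem Bdd3.swap23 {a b c : ℕ} {e f g : ℤ} (h : Bdd3 a b c e f g) : Bdd3 a c b e g f := by
  obtain ⟨M, hM, B, h⟩ := h
  refine ⟨M, hM, B, fun x y z hd => ?_⟩
  have := h x z y (by rwa [add_right_comm])
  tauto

theorem odd_geom {u s : ℤ} (hu : Odd u) (hs : s = 1 ∨ s = -1) {c : ℕ} (hc : Odd c) :
    ∃ w : ℤ, Odd w ∧ u ^ c - s = (u - s) * w := by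
  obtain ⟨k, rfl⟩ := hc
  induction k with
  | zero => exact ⟨1, odd_one, by ring⟩
  | succ k ih =>
    obtain ⟨w, hw, h⟩ := ih
    have hs2 : s * s = 1 := by rcases hs with rfl | rfl <;> norm_num
    have hso : Odd s := by rcases hs with rfl | rfl <;> decide
    refine ⟨u ^ 2 * w + s * (u + s), ?_, ?_⟩
    · exact ((hu.pow).mul hw).add_even ((hu.add_odd hso).mul_left s)
    · have : u ^ (2 * (k + 1) + 1) = u ^ 2 * u ^ (2 * k + 1) := by ring
      rw [this]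
      have h2 : u ^ (2 * k + 1) = (u - s) * w + s := by linarith
      rw [h2]
      linear_combination (s : ℤ) * hs2

theorem two_pow_dvd_of_odd {A : ℕ} {v w : ℤ} (hw : Odd w) (h : (2 : ℤ) ^ A ∣ v * w) :
    (2 : ℤ) ^ A ∣ v := by
  refine IsCoprime.dvd_of_dvd_mul_right ?_ h
  apply IsCoprime.pow_left
  obtain ⟨k, rfl⟩ := hw
  exact ⟨-k, 1, by ring⟩

/-- The congruence `2 ^ a + η ≡ θ q ^ c`. -/
theorem two_q {q : ℕ} (hq : q.Prime) (hq2 : q ≠ 2) : ∃ M : ℕ, 1 ≤ M ∧ 2 ∣ M ∧ q ∣ M ∧ ∃ B : ℕ,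
    ∀ (a c : ℕ) (η θ : ℤ), (η = 1 ∨ η = -1) → (θ = 1 ∨ θ = -1) →
      (M : ℤ) ∣ 2 ^ a + η - θ * (q : ℤ) ^ c → a ≤ B ∧ c ≤ B := by
  have hqo : Odd q := hq.odd_of_ne_two hq2
  have hqo' : Odd (q : ℤ) := by exact_mod_cast hqo
  have hq3 : 3 ≤ q := by have := hq.two_le; omega
  have hq3' : (3 : ℤ) ≤ q := by exact_mod_cast hq3
  obtain ⟨A, hA⟩ : ∃ A : ℕ, q ^ 2 < 2 ^ A := ⟨q ^ 2, Nat.lt_two_pow_self⟩
  obtain ⟨C, hC⟩ : ∃ C : ℕ, 2 ^ A + 1 < q ^ C :=
    ⟨2 ^ A + 1, Nat.lt_pow_self (by omega)⟩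
  have hA' : (q : ℤ) ^ 2 < 2 ^ A := by exact_mod_cast hA
  have hC' : (2 : ℤ) ^ A + 1 < (q : ℤ) ^ C := by exact_mod_cast hC
  have hA2 : 2 ≤ A := by
    by_contra hcon
    have : A = 0 ∨ A = 1 := by omega
    rcases this with rfl | rfl <;> nlinarith
  refine ⟨2 ^ A * (q ^ 2 + 1) * q ^ (C + 1), Nat.succ_le_of_lt (by positivity), ?_, ?_,
    max A C, fun a c η θ hη hθ hd => ?_⟩
  · exact Dvd.dvd.mul_right (Dvd.dvd.mul_right (dvd_pow_self 2 (by omega)) _) _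
  · exact Dvd.dvd.mul_left (dvd_pow_self q (by omega)) _
  push_cast at hd
  have hd1 : (2 : ℤ) ^ A ∣ 2 ^ a + η - θ * (q : ℤ) ^ c :=
    Dvd.dvd.trans ⟨(q ^ 2 + 1) * q ^ (C + 1), by ring⟩ hd
  have hd2 : (q : ℤ) ^ 2 + 1 ∣ 2 ^ a + η - θ * (q : ℤ) ^ c :=
    Dvd.dvd.trans ⟨2 ^ A * q ^ (C + 1), by ring⟩ hd
  have hd3 : (q : ℤ) ^ C ∣ 2 ^ a + η - θ * (q : ℤ) ^ c :=
    Dvd.dvd.trans ⟨2 ^ A * (q ^ 2 + 1) * q, by ring⟩ hd
  have hθ2 : θ * θ = 1 := by rcases hθ with rfl | rfl <;> norm_num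
  have ha : a < A := by
    by_contra hcon
    have h1 : (2 : ℤ) ^ A ∣ 2 ^ a := pow_dvd_pow 2 (not_lt.1 hcon)
    have h2 : (2 : ℤ) ^ A ∣ (q : ℤ) ^ c - η * θ := by
      have h3 := (Dvd.dvd.sub h1 hd1).mul_left θ
      have h4 : θ * (2 ^ a - (2 ^ a + η - θ * (q : ℤ) ^ c)) = (q : ℤ) ^ c - η * θ := by
        linear_combination ((q : ℤ) ^ c) * hθ2
      rwa [h4] at h3
    have hs : η * θ = 1 ∨ η * θ = -1 := by
      rcases hη with rfl | rfl <;> rcases hθ with rfl | rfl <;> norm_num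
    rcases Nat.even_or_odd c with hc | hc
    · obtain ⟨m, rfl⟩ := hc
      have h5 : (q : ℤ) ^ (m + m) = ((q : ℤ) ^ 2) ^ m := by ring
      have h4 : (4 : ℤ) ∣ (q : ℤ) ^ (m + m) - η * θ :=
        Dvd.dvd.trans (by simpa using pow_dvd_pow (2 : ℤ) hA2) h2
      have hs1 : η * θ = 1 := by
        rcases hs with h | h
        · exact h
        · exfalso
          rw [h] at h4
          obtain ⟨k, hk⟩ : Odd ((q : ℤ) ^ m) := hqo'.pow
          have h6 : (q : ℤ) ^ (m + m) = 4 * (k ^ 2 + k) + 1 := by rw [pow_add, hk]; ring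
          rw [h6] at h4
          omega
      rw [hs1, h5] at h2
      rcases Nat.even_or_odd m with hm | hm
      · obtain ⟨n, rfl⟩ := hm
        have hηθ : η = θ := by linear_combination θ * hs1 - η * hθ2
        have h7 : (q : ℤ) ^ 2 + 1 ∣ (q : ℤ) ^ (n + n + (n + n)) - 1 := by
          have h8 : (q : ℤ) ^ (n + n + (n + n)) = ((q : ℤ) ^ 4) ^ n := by ring
          rw [h8]
          refine Dvd.dvd.trans ⟨(q : ℤ) ^ 2 - 1, by ring⟩
            (show (q : ℤ) ^ 4 - 1 ∣ ((q : ℤ) ^ 4) ^ n - 1 by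
              simpa using sub_dvd_pow_sub_pow ((q : ℤ) ^ 4) 1 n)
        have h9 : (q : ℤ) ^ 2 + 1 ∣ 2 ^ a := by
          have := Dvd.dvd.add hd2 (h7.mul_left θ)
          have h10 : 2 ^ a + η - θ * (q : ℤ) ^ (n + n + (n + n)) +
              θ * ((q : ℤ) ^ (n + n + (n + n)) - 1) = 2 ^ a := by rw [hηθ]; ring
          rwa [h10] at this
        have h11 : q ^ 2 + 1 ∣ 2 ^ a := by exact_mod_cast h9
        obtain ⟨j, -, hj⟩ := (Nat.dvd_prime_pow Nat.prime_two).1 h11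
        obtain ⟨k, hk⟩ := hqo
        have h12 : q ^ 2 + 1 = 4 * (k ^ 2 + k) + 2 := by rw [hk]; ring
        have h13 : 10 ≤ q ^ 2 + 1 := by nlinarith
        rcases Nat.lt_or_ge j 2 with hj2 | hj2
        · interval_cases j <;> omega
        · have : 4 ∣ 2 ^ j := pow_dvd_pow 2 hj2
          omega
      · obtain ⟨w, hw, h6⟩ := odd_geom (hqo'.pow (n := 2)) (Or.inl rfl) hm
        rw [h6] at h2
        have h7 := Int.le_of_dvd (by nlinarith) (two_pow_dvd_of_odd hw h2)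
        linarith
    · obtain ⟨w, hw, h6⟩ := odd_geom hqo' hs hc
      rw [h6] at h2
      have h7 := Int.le_of_dvd (by rcases hs with h | h <;> rw [h] <;> linarith)
        (two_pow_dvd_of_odd hw h2)
      rcases hs with h | h <;> rw [h] at h7 <;> nlinarith
  refine ⟨le_max_of_le_left ha.le, le_max_of_le_right ?_⟩
  by_contra hcon
  have h1 : (q : ℤ) ^ C ∣ θ * (q : ℤ) ^ c := (pow_dvd_pow _ (not_le.1 hcon).le).mul_left θ
  have h2 : (q : ℤ) ^ C ∣ 2 ^ a + η := by simpa using Dvd.dvd.add hd3 h1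
  have h3 : (2 : ℤ) ^ a ≤ 2 ^ A := pow_le_pow_right₀ (by norm_num) ha.le
  rcases Nat.eq_zero_or_pos a with ha0 | ha0
  · subst ha0
    have h4 : (2 : ℤ) ∣ 2 ^ 0 + η - θ * (q : ℤ) ^ c :=
      Dvd.dvd.trans (dvd_pow_self 2 (by omega)) hd1
    obtain ⟨k, hk⟩ : Odd ((q : ℤ) ^ c) := hqo'.pow
    rw [hk] at h4
    rcases hη with rfl | rfl <;> rcases hθ with rfl | rfl <;> omega
  · have h4 : (2 : ℤ) ^ 1 ≤ 2 ^ a := pow_le_pow_right₀ (by norm_num) ha0
    have h5 := Int.le_of_dvd (by rcases hη with rfl | rfl <;> linarith) h2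
    rcases hη with rfl | rfl <;> linarith

theorem bdd3_two_two {q : ℕ} (hq : q.Prime) (hq2 : q ≠ 2) {e f g : ℤ} (he : e = 1 ∨ e = -1)
    (hf : f = 1 ∨ f = -1) (hg : g = 1 ∨ g = -1) : Bdd3 2 2 q e f g := by
  obtain ⟨M, hM, h2, -, B, h⟩ := two_q hq hq2
  have hqo' : Odd (q : ℤ) := by exact_mod_cast hq.odd_of_ne_two hq2
  refine ⟨M, hM, B, fun x y z hd => ?_⟩
  push_cast at hd
  have h2' : (2 : ℤ) ∣ M := by exact_mod_cast h2
  rcases Nat.eq_zero_or_pos x with hx | hx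
  · subst hx
    have := h y z (e * f) (-(f * g))
      (by rcases he with rfl | rfl <;> rcases hf with rfl | rfl <;> norm_num)
      (by rcases hg with rfl | rfl <;> rcases hf with rfl | rfl <;> norm_num)
      (by
        have h3 := hd.mul_left f
        have h4 : f * f = 1 := by rcases hf with rfl | rfl <;> norm_num
        have h5 : f * (e * 2 ^ 0 + f * 2 ^ y + g * (q : ℤ) ^ z) =
            2 ^ y + e * f - -(f * g) * (q : ℤ) ^ z := by linear_combination (2 : ℤ) ^ y * h4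
        rwa [h5] at h3)
    exact ⟨Nat.zero_le _, this⟩
  rcases Nat.eq_zero_or_pos y with hy | hy
  · subst hy
    have := h x z (e * f) (-(e * g))
      (by rcases he with rfl | rfl <;> rcases hf with rfl | rfl <;> norm_num)
      (by rcases hg with rfl | rfl <;> rcases he with rfl | rfl <;> norm_num)
      (by
        have h3 := hd.mul_left e
        have h4 : e * e = 1 := by rcases he with rfl | rfl <;> norm_num
        have h5 : e * (e * 2 ^ x + f * 2 ^ 0 + g * (q : ℤ) ^ z) =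
            2 ^ x + e * f - -(e * g) * (q : ℤ) ^ z := by linear_combination (2 : ℤ) ^ x * h4
        rwa [h5] at h3)
    exact ⟨this.1, Nat.zero_le _, this.2⟩
  exfalso
  have h3 := h2'.trans hd
  obtain ⟨k, hk⟩ : Odd ((q : ℤ) ^ z) := hqo'.pow
  obtain ⟨u, hu⟩ : (2 : ℤ) ∣ 2 ^ x := dvd_pow_self 2 hx.ne'
  obtain ⟨v, hv⟩ : (2 : ℤ) ∣ 2 ^ y := dvd_pow_self 2 hy.ne'
  rw [hk, hu, hv] at h3
  rcases he with rfl | rfl <;> rcases hf with rfl | rfl <;> rcases hg with rfl | rfl <;> omega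

theorem bdd3_q_q {q : ℕ} (hq : q.Prime) (hq2 : q ≠ 2) {e f g : ℤ} (he : e = 1 ∨ e = -1)
    (hf : f = 1 ∨ f = -1) (hg : g = 1 ∨ g = -1) : Bdd3 q q 2 e f g := by
  obtain ⟨M, hM, -, h2, B, h⟩ := two_q hq hq2
  refine ⟨M, hM, B, fun x y z hd => ?_⟩
  push_cast at hd
  have h2' : (q : ℤ) ∣ M := by exact_mod_cast h2
  have h4 : g * g = 1 := by rcases hg with rfl | rfl <;> norm_num
  rcases Nat.eq_zero_or_pos x with hx | hx
  · subst hx
    have := h z y (e * g) (-(f * g))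
      (by rcases he with rfl | rfl <;> rcases hg with rfl | rfl <;> norm_num)
      (by rcases hg with rfl | rfl <;> rcases hf with rfl | rfl <;> norm_num)
      (by
        have h3 := hd.mul_left g
        have h5 : g * (e * (q : ℤ) ^ 0 + f * (q : ℤ) ^ y + g * 2 ^ z) =
            2 ^ z + e * g - -(f * g) * (q : ℤ) ^ y := by linear_combination (2 : ℤ) ^ z * h4
        rwa [h5] at h3)
    exact ⟨Nat.zero_le _, this.2, this.1⟩
  rcases Nat.eq_zero_or_pos y with hy | hy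
  · subst hy
    have := h z x (f * g) (-(e * g))
      (by rcases hf with rfl | rfl <;> rcases hg with rfl | rfl <;> norm_num)
      (by rcases hg with rfl | rfl <;> rcases he with rfl | rfl <;> norm_num)
      (by
        have h3 := hd.mul_left g
        have h5 : g * (e * (q : ℤ) ^ x + f * (q : ℤ) ^ 0 + g * 2 ^ z) =
            2 ^ z + f * g - -(e * g) * (q : ℤ) ^ x := by linear_combination (2 : ℤ) ^ z * h4
        rwa [h5] at h3)
    exact ⟨this.2, Nat.zero_le _, this.1⟩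
  exfalso
  have h3 := h2'.trans hd
  have h5 : (q : ℤ) ∣ e * (q : ℤ) ^ x + f * (q : ℤ) ^ y :=
    Dvd.dvd.add ((dvd_pow_self _ hx.ne').mul_left e) ((dvd_pow_self _ hy.ne').mul_left f)
  have h6 : (q : ℤ) ∣ g * (g * 2 ^ z) := ((dvd_add_right h5).1 h3).mul_left g
  rw [← mul_assoc, h4, one_mul] at h6
  have h7 : q ∣ 2 ^ z := by exact_mod_cast h6
  exact hq2 ((Nat.prime_dvd_prime_iff_eq hq Nat.prime_two).1 (hq.dvd_of_dvd_pow h7))

theorem bdd3_odd {a b c : ℕ} (ha : Odd a) (hb : Odd b) (hc : Odd c) {e f g : ℤ}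
    (he : e = 1 ∨ e = -1) (hf : f = 1 ∨ f = -1) (hg : g = 1 ∨ g = -1) : Bdd3 a b c e f g := by
  refine ⟨2, by norm_num, 0, fun x y z hd => ?_⟩
  exfalso
  obtain ⟨u, hu⟩ : Odd ((a : ℤ) ^ x) := (show Odd (a : ℤ) by exact_mod_cast ha).pow
  obtain ⟨v, hv⟩ : Odd ((b : ℤ) ^ y) := (show Odd (b : ℤ) by exact_mod_cast hb).pow
  obtain ⟨w, hw⟩ : Odd ((c : ℤ) ^ z) := (show Odd (c : ℤ) by exact_mod_cast hc).pow
  rw [hu, hv, hw] at hd
  push_cast at hd
  rcases he with rfl | rfl <;> rcases hf with rfl | rfl <;> rcases hg with rfl | rfl <;> omega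

theorem bdd3_two_plus {q r : ℕ} (hq : q.Prime) (hr : r.Prime) (hq2 : q ≠ 2) (hr2 : r ≠ 2)
    (hqr : q ≠ r) {e : ℤ} (he : e = 1 ∨ e = -1) : Bdd3 2 q r e e e := by
  refine ⟨8 * q * r, Nat.succ_le_of_lt (by have := hq.pos; have := hr.pos; positivity), 0,
    fun x y z hd => ?_⟩
  exfalso
  apply two_plus_plus hq hr hq2 hr2 hqr x y z
  have h3 := hd.mul_left e
  have h4 : e * e = 1 := by rcases he with rfl | rfl <;> norm_num
  have h5 : e * (e * ((2 : ℕ) : ℤ) ^ x + e * (q : ℤ) ^ y + e * (r : ℤ) ^ z) =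
      2 ^ x + (q : ℤ) ^ y + (r : ℤ) ^ z := by
    push_cast
    linear_combination (2 ^ x + (q : ℤ) ^ y + (r : ℤ) ^ z) * h4
  rwa [h5] at h3

theorem bdd3_twos {e : ℤ} (he : e = 1 ∨ e = -1) : Bdd3 2 2 2 e e e := by
  refine ⟨15, by norm_num, 0, fun x y z hd => ?_⟩
  exfalso
  have h : ∀ n : ℕ, (2 : ℤ) ^ n % 15 = 1 ∨ (2 : ℤ) ^ n % 15 = 2 ∨ (2 : ℤ) ^ n % 15 = 4 ∨
      (2 : ℤ) ^ n % 15 = 8 := by
    intro n
    induction n with
    | zero => simp
    | succ n ih => rw [pow_succ]; omega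
  have hx := h x
  have hy := h y
  have hz := h z
  push_cast at hd
  rcases he with rfl | rfl <;> omega

end Pool.Agent.Lib.MP_b7b898_nt
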